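import Mathlib

/-!
A weighted lemma on block designs with `λ = 1`: if non negative integer weights on the points of a
`2-(V, K, 1)` design have total `K d` and every block has weight `0` or `d`, then the design is an
affine plane and the weights are constant.
-/

set_option autoImplicit false

open Finset

namespace Pool.Agent.Run7.h503

section Design

variable {ι κ : Type*} [DecidableEq ι]

lemma design_sum (P : Finset ι) (Q : Finset κ) (I : ι → κ → Prop)
    [∀ p b, Decidable (I p b)] (R : ℕ) (x : ι → ℕ)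
    (hR : ∀ p ∈ P, (Q.filter (fun b => I p b)).card = R)
    (h2 : ∀ p ∈ P, ∀ q ∈ P, p ≠ q → (Q.filter (fun b => I p b ∧ I q b)).card = 1)
    (p : ι) (hp : p ∈ P) :
    ∑ b ∈ Q.filter (fun b => I p b), ∑ q ∈ P.filter (fun q => I q b), x q + x p =
      R * x p + ∑ q ∈ P, x q := by
  classical
  have h1 : ∑ b ∈ Q.filter (fun b => I p b), ∑ q ∈ P.filter (fun q => I q b), x q =
      ∑ q ∈ P, ((Q.filter (fun b => I p b ∧ I q b)).card * x q) := by
    calc ∑ b ∈ Q.filter (fun b => I p b), ∑ q ∈ P.filter (fun q => I q b), x q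
        = ∑ b ∈ Q.filter (fun b => I p b), ∑ q ∈ P, (if I q b then x q else 0) := by
          refine sum_congr rfl fun b _ => ?_
          rw [sum_filter]
      _ = ∑ q ∈ P, ∑ b ∈ Q.filter (fun b => I p b), (if I q b then x q else 0) := sum_comm
      _ = _ := by
          refine sum_congr rfl fun q _ => ?_
          rw [← sum_filter, sum_const, smul_eq_mul, filter_filter]
  rw [h1, ← add_sum_erase P _ hp, ← add_sum_erase P x hp]
  have h3 : (Q.filter (fun b => I p b ∧ I p b)).card = R := by
    simpa using hR p hp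
  have h4 : ∑ q ∈ P.erase p, (Q.filter (fun b => I p b ∧ I q b)).card * x q =
      ∑ q ∈ P.erase p, x q := by
    refine sum_congr rfl fun q hq => ?_
    rw [mem_erase] at hq
    rw [h2 p hp q hq.2 (Ne.symm hq.1), one_mul]
  rw [h3, h4]
  ring

theorem design_affine (P : Finset ι) (Q : Finset κ) (I : ι → κ → Prop)
    [∀ p b, Decidable (I p b)] (K R d : ℕ) (x : ι → ℕ)
    (hK : ∀ b ∈ Q, (P.filter (fun p => I p b)).card = K)
    (hR : ∀ p ∈ P, (Q.filter (fun b => I p b)).card = R)
    (h2 : ∀ p ∈ P, ∀ q ∈ P, p ≠ q → (Q.filter (fun b => I p b ∧ I q b)).card = 1)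
    (hK2 : 2 ≤ K) (hR1 : 1 ≤ R) (hd : 0 < d)
    (htot : ∑ p ∈ P, x p = K * d)
    (hblk : ∀ b ∈ Q, ∑ p ∈ P.filter (fun p => I p b), x p = 0 ∨
      ∑ p ∈ P.filter (fun p => I p b), x p = d) :
    R = K + 1 ∧ ∀ p ∈ P, K * x p = d := by
  classical
  -- equation at a positive point
  have hpos : ∀ p ∈ P, 0 < x p → R * d + x p = R * x p + K * d := by
    intro p hp hxp
    have h := design_sum P Q I R x hR h2 p hp
    rw [htot] at h
    rw [← h]
    congr 1
    have h5 : ∀ b ∈ Q.filter (fun b => I p b), ∑ q ∈ P.filter (fun q => I q b), x q = d := by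
      intro b hb
      rw [mem_filter] at hb
      rcases hblk b hb.1 with h6 | h6
      · exfalso
        have h7 : x p ≤ ∑ q ∈ P.filter (fun q => I q b), x q :=
          single_le_sum (f := x) (fun _ _ => Nat.zero_le _) (by
            rw [mem_filter]; exact ⟨hp, hb.2⟩)
        omega
      · exact h6
    rw [sum_congr rfl h5, sum_const, smul_eq_mul, hR p hp]
  -- a positive point
  obtain ⟨p0, hp0, hx0⟩ : ∃ p ∈ P, 0 < x p := by
    by_contra hcon
    push Not at hcon
    have : ∑ p ∈ P, x p = 0 := sum_eq_zero fun p hp => by have := hcon p hp; omega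
    rw [htot] at this
    have := Nat.mul_pos (by omega : 0 < K) hd
    omega
  set y := x p0 with hy
  have e0 := hpos p0 hp0 hx0
  have hR2 : 2 ≤ R := by
    rcases Nat.lt_or_ge R 2 with h | h
    · exfalso
      have hR' : R = 1 := by omega
      rw [hR'] at e0
      have : K * d = d := by omega
      have : 2 * d ≤ K * d := Nat.mul_le_mul_right d hK2
      omega
    · exact h
  have heq : ∀ p ∈ P, 0 < x p → x p = y := by
    intro p hp hxp
    have e1 := hpos p hp hxp
    -- (R - 1) x p = (R - 1) y
    obtain ⟨R', rfl⟩ : ∃ R', R = R' + 1 := ⟨R - 1, by omega⟩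
    have h3 : R' * x p = R' * y := by nlinarith
    exact Nat.eq_of_mul_eq_mul_left (by omega) h3
  -- a block through p0
  obtain ⟨b0, hb0⟩ : (Q.filter (fun b => I p0 b)).Nonempty := by
    rw [← card_pos, hR p0 hp0]; omega
  rw [mem_filter] at hb0
  set μ := ((P.filter (fun q => I q b0)).filter (fun q => 0 < x q)).card with hμ
  have hb0d : ∑ q ∈ P.filter (fun q => I q b0), x q = d := by
    rcases hblk b0 hb0.1 with h6 | h6
    · exfalso
      have h7 : x p0 ≤ ∑ q ∈ P.filter (fun q => I q b0), x q :=
        single_le_sum (f := x) (fun _ _ => Nat.zero_le _) (by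
          rw [mem_filter]; exact ⟨hp0, hb0.2⟩)
      omega
    · exact h6
  have hsumpos : ∀ S : Finset ι, S ⊆ P → ∑ q ∈ S, x q = (S.filter (fun q => 0 < x q)).card * y := by
    intro S hS
    rw [← sum_filter_add_sum_filter_not S (fun q => 0 < x q)]
    have h8 : ∑ q ∈ S.filter (fun q => ¬ 0 < x q), x q = 0 :=
      sum_eq_zero fun q hq => by rw [mem_filter] at hq; omega
    rw [h8, add_zero]
    have h9 : ∀ q ∈ S.filter (fun q => 0 < x q), x q = y := by
      intro q hq
      rw [mem_filter] at hq
      exact heq q (hS hq.1) hq.2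
    rw [sum_congr rfl h9, sum_const, smul_eq_mul]
  have hμd : μ * y = d := by
    rw [← hb0d, hsumpos _ (filter_subset _ _)]
  have hn : (P.filter (fun q => 0 < x q)).card = K * μ := by
    have h := hsumpos P (Subset.refl _)
    rw [htot, ← hμd] at h
    have : (K * μ) * y = (P.filter (fun q => 0 < x q)).card * y := by rw [← h]; ring
    exact (Nat.eq_of_mul_eq_mul_right hx0 this).symm
  have hμK : μ ≤ K := by
    rw [← hK b0 hb0.1]
    exact card_le_card (filter_subset _ _)
  have hμ1 : 1 ≤ μ := by
    rcases Nat.eq_zero_or_pos μ with h | h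
    · rw [h] at hμd; omega
    · exact h
  -- R μ + 1 = R + K μ
  have hrel : R * μ + 1 = R + K * μ := by
    have : (R * μ + 1) * y = (R + K * μ) * y := by
      rw [← hμd] at e0
      nlinarith
    exact Nat.eq_of_mul_eq_mul_right hx0 this
  -- number of points
  have hV : P.card + R = 1 + R * K := by
    have h := design_sum P Q I R (fun _ => 1) hR h2 p0 hp0
    simp only [sum_const, smul_eq_mul, mul_one] at h
    have h5 : ∀ b ∈ Q.filter (fun b => I p0 b), (P.filter (fun q => I q b)).card = K := by
      intro b hb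
      rw [mem_filter] at hb
      exact hK b hb.1
    rw [sum_congr rfl h5, sum_const, smul_eq_mul, hR p0 hp0] at h
    omega
  -- number of blocks
  have hN : Q.card * K = P.card * R := by
    calc Q.card * K = ∑ b ∈ Q, (P.filter (fun p => I p b)).card := by
          rw [sum_congr rfl hK, sum_const, smul_eq_mul]
      _ = ∑ b ∈ Q, ∑ p ∈ P, (if I p b then 1 else 0) := by
          refine sum_congr rfl fun b _ => ?_
          rw [card_filter]
      _ = ∑ p ∈ P, ∑ b ∈ Q, (if I p b then 1 else 0) := sum_comm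
      _ = ∑ p ∈ P, (Q.filter (fun b => I p b)).card := by
          refine sum_congr rfl fun p _ => ?_
          rw [card_filter]
      _ = P.card * R := by rw [sum_congr rfl hR, sum_const, smul_eq_mul]
  -- K and R coprime
  have hcop : IsCoprime (K : ℤ) (R : ℤ) := by
    refine ⟨(μ : ℤ), -((μ : ℤ) - 1), ?_⟩
    have : (R : ℤ) * μ + 1 = R + K * μ := by exact_mod_cast hrel
    linarith
  -- K divides R (R - 1)
  have hdiv : (K : ℤ) ∣ (R : ℤ) * (R - 1) := by
    refine ⟨(R : ℤ) * R - Q.card, ?_⟩
    have h1 : (P.card : ℤ) + R = 1 + R * K := by exact_mod_cast hV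
    have h3 : (Q.card : ℤ) * K = P.card * R := by exact_mod_cast hN
    have h4 : (P.card : ℤ) = 1 + R * K - R := by linarith
    rw [h4] at h3
    linarith
  have hdiv2 : (K : ℤ) ∣ (R : ℤ) - 1 := hcop.dvd_of_dvd_mul_left hdiv
  have hdiv3 : (K : ℤ) ∣ (μ : ℤ) := by
    have h5 : (K : ℤ) ∣ (R : ℤ) * μ := by
      have : (R : ℤ) * μ = (R - 1) + K * μ := by
        have : (R : ℤ) * μ + 1 = R + K * μ := by exact_mod_cast hrel
        linarith
      rw [this]
      exact dvd_add hdiv2 (dvd_mul_right _ _)
    exact hcop.dvd_of_dvd_mul_left h5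
  have hdiv4 : K ∣ μ := by exact_mod_cast hdiv3
  have hμeq : μ = K := le_antisymm hμK (Nat.le_of_dvd (by omega) hdiv4)
  rw [hμeq] at hrel hn hμd
  have hRK : R = K + 1 := by
    obtain ⟨K', rfl⟩ : ∃ K', K = K' + 1 := ⟨K - 1, by omega⟩
    have h6 : K' * R = K' * (K' + 1 + 1) := by nlinarith
    exact Nat.eq_of_mul_eq_mul_left (by omega) h6
  refine ⟨hRK, ?_⟩
  have hPK : P.card = K * K := by
    rw [hRK] at hV
    nlinarith
  have hall : P.filter (fun q => 0 < x q) = P := by
    apply eq_of_subset_of_card_le (filter_subset _ _)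
    rw [hn, hPK]
  intro p hp
  have h10 : 0 < x p := by
    rw [← hall, mem_filter] at hp
    exact hp.2
  rw [heq p hp h10, ← hμd]

end Design

end Pool.Agent.Run7.h503
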