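import Mathlib
import Pool.Agent.Run7.h503.DesignWeights

/-!
Flats of a simple matroid with a constant size in each rank (a perfect matroid design) and sets
meeting every hyperplane in the size of a small flat.
-/

set_option autoImplicit false

open Finset

namespace Pool.Agent.Run7.h503

/-- the facts about flats and ranks of a matroid on `Fin n` (ground set everything) we use -/
structure Geo (n : ℕ) where
  isF : Finset (Fin n) → Prop
  rk : Finset (Fin n) → ℕ
  top_isF : isF univ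
  bot : Finset (Fin n)
  bot_isF : isF bot
  bot_rk : rk bot = 0
  bot_le : ∀ F, isF F → bot ⊆ F
  add_pt : ∀ F, isF F → ∀ x, x ∉ F → ∃ G, isF G ∧ F ⊆ G ∧ x ∈ G ∧ rk G = rk F + 1
  min : ∀ F G K, isF F → isF G → isF K → ∀ x, x ∉ F → x ∈ G → F ⊆ G → rk G = rk F + 1 →
    F ⊆ K → x ∈ K → G ⊆ K
  lt : ∀ F G, isF F → isF G → F ⊂ G → rk F < rk G
  inter : ∀ F G, isF F → isF G → isF (F ∩ G)

namespace Geo

variable {n : ℕ} (S : Geo n)

open Classical in
/-- flats covering `F` inside `G` -/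
noncomputable def cov (F G : Finset (Fin n)) : Finset (Finset (Fin n)) :=
  univ.filter (fun L => S.isF L ∧ F ⊆ L ∧ L ⊆ G ∧ S.rk L = S.rk F + 1)

open Classical in
/-- flats of rank two more than `F` containing `F` -/
noncomputable def hyp (F : Finset (Fin n)) : Finset (Finset (Fin n)) :=
  univ.filter (fun L => S.isF L ∧ F ⊆ L ∧ S.rk L = S.rk F + 2)

variable {S}

lemma mem_cov {F G L : Finset (Fin n)} :
    L ∈ S.cov F G ↔ S.isF L ∧ F ⊆ L ∧ L ⊆ G ∧ S.rk L = S.rk F + 1 := by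
  simp [cov]

lemma mem_hyp {F L : Finset (Fin n)} :
    L ∈ S.hyp F ↔ S.isF L ∧ F ⊆ L ∧ S.rk L = S.rk F + 2 := by
  simp [hyp]

lemma rk_le {F G : Finset (Fin n)} (hF : S.isF F) (hG : S.isF G) (h : F ⊆ G) :
    S.rk F ≤ S.rk G := by
  rcases eq_or_ssubset_of_subset h with h | h
  · rw [h]
  · exact (S.lt F G hF hG h).le

lemma eq_of_rk {F G : Finset (Fin n)} (hF : S.isF F) (hG : S.isF G) (h : F ⊆ G)
    (hr : S.rk G ≤ S.rk F) : F = G := by
  rcases eq_or_ssubset_of_subset h with h | h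
  · exact h
  · exact absurd (S.lt F G hF hG h) (by omega)

lemma cov_unique {F L L' : Finset (Fin n)} (hF : S.isF F) {G G' : Finset (Fin n)}
    (hL : L ∈ S.cov F G) (hL' : L' ∈ S.cov F G') {x : Fin n} (hx : x ∉ F) (h1 : x ∈ L)
    (h2 : x ∈ L') : L = L' := by
  rw [mem_cov] at hL hL'
  exact subset_antisymm
    (S.min F L L' hF hL.1 hL'.1 x hx h1 hL.2.1 hL.2.2.2 hL'.2.1 h2)
    (S.min F L' L hF hL'.1 hL.1 x hx h2 hL'.2.1 hL'.2.2.2 hL.2.1 h1)

lemma exists_cov {F G : Finset (Fin n)} (hF : S.isF F) (hG : S.isF G) (hFG : F ⊆ G) {x : Fin n}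
    (hx : x ∉ F) (hxG : x ∈ G) : ∃ L ∈ S.cov F G, x ∈ L := by
  obtain ⟨L, hL, hFL, hxL, hr⟩ := S.add_pt F hF x hx
  exact ⟨L, mem_cov.2 ⟨hL, hFL, S.min F L G hF hL hG x hx hxL hFL hr hFG hxG, hr⟩, hxL⟩

lemma partition {F G : Finset (Fin n)} (hF : S.isF F) (hG : S.isF G) (hFG : F ⊆ G)
    (X : Finset (Fin n)) :
    ∑ L ∈ S.cov F G, (X ∩ (L \ F)).card = (X ∩ (G \ F)).card := by
  classical
  rw [← card_biUnion]
  · congr 1
    ext x
    simp only [mem_biUnion, mem_inter, mem_sdiff]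
    constructor
    · rintro ⟨L, hL, hx1, hx2, hx3⟩
      rw [mem_cov] at hL
      exact ⟨hx1, hL.2.2.1 hx2, hx3⟩
    · rintro ⟨hx1, hx2, hx3⟩
      obtain ⟨L, hL, hxL⟩ := exists_cov hF hG hFG hx3 hx2
      exact ⟨L, hL, hx1, hxL, hx3⟩
  · intro L hL L' hL' hne
    rw [Function.onFun, disjoint_left]
    intro x hx hx'
    simp only [mem_inter, mem_sdiff] at hx hx'
    exact hne (cov_unique hF (mem_coe.1 hL) (mem_coe.1 hL') hx.2.2 hx.2.1 hx'.2.1)

lemma rk_cov {F G L : Finset (Fin n)} (h : L ∈ S.cov F G) : S.rk L = S.rk F + 1 :=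
  (mem_cov.1 h).2.2.2

/-- a flat of positive rank contains a flat of one rank less -/
lemma exists_below {G : Finset (Fin n)} (hG : S.isF G) (h : 0 < S.rk G) :
    ∃ F, S.isF F ∧ F ⊆ G ∧ S.rk F + 1 = S.rk G := by
  classical
  have hne : ((univ : Finset (Finset (Fin n))).filter (fun F => S.isF F ∧ F ⊂ G)).Nonempty := by
    refine ⟨S.bot, ?_⟩
    rw [mem_filter]
    refine ⟨mem_univ _, S.bot_isF, ?_⟩
    rcases eq_or_ssubset_of_subset (S.bot_le G hG) with h1 | h1
    · rw [← h1, S.bot_rk] at h; omega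
    · exact h1
  obtain ⟨F, hF, hmax⟩ := exists_max_image _ (fun F => F.card) hne
  rw [mem_filter] at hF
  obtain ⟨-, hF1, hF2⟩ := hF
  obtain ⟨x, hxG, hxF⟩ := exists_of_ssubset hF2
  obtain ⟨L, hL, hFL, hxL, hr⟩ := S.add_pt F hF1 x hxF
  have hLG : L ⊆ G := S.min F L G hF1 hL hG x hxF hxL hFL hr hF2.1 hxG
  refine ⟨F, hF1, hF2.1, ?_⟩
  rcases eq_or_ssubset_of_subset hLG with h1 | h1
  · rw [← h1, hr]
  · exfalso
    have h2 := hmax L (by rw [mem_filter]; exact ⟨mem_univ _, hL, h1⟩)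
    have h3 : F.card < L.card := card_lt_card ⟨hFL, fun h4 => hxF (h4 hxL)⟩
    omega

lemma exists_below_rk {G : Finset (Fin n)} (hG : S.isF G) (i : ℕ) (h : i ≤ S.rk G) :
    ∃ F, S.isF F ∧ F ⊆ G ∧ S.rk F = i := by
  obtain ⟨m, hm⟩ : ∃ m, S.rk G = i + m := ⟨S.rk G - i, by omega⟩
  induction m generalizing G with
  | zero => exact ⟨G, hG, Subset.refl _, by omega⟩
  | succ m ih =>
    obtain ⟨F, hF, hFG, hr⟩ := exists_below hG (by omega)
    obtain ⟨F', h1, h2, h3⟩ := ih hF (by omega) (by omega)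
    exact ⟨F', h1, h2.trans hFG, h3⟩

end Geo

/-- a `Geo` all of whose flats of the same rank have the same size -/
structure PMD (n : ℕ) extends Geo n where
  size : ∀ F G, isF F → isF G → rk F = rk G → F.card = G.card

namespace PMD

variable {n : ℕ} {S : PMD n}

lemma card_lt {F G : Finset (Fin n)} (hF : S.isF F) (hG : S.isF G) (h : S.rk F < S.rk G) :
    F.card < G.card := by
  obtain ⟨G', h1, h2, h3⟩ := Geo.exists_below_rk (S := S.toGeo) hG (S.rk F) h.le
  rw [S.size F G' hF h1 h3.symm]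
  apply card_lt_card
  rcases eq_or_ssubset_of_subset h2 with h4 | h4
  · rw [h4] at h3; omega
  · exact h4

lemma card_le {F G : Finset (Fin n)} (hF : S.isF F) (hG : S.isF G) (h : S.rk F ≤ S.rk G) :
    F.card ≤ G.card := by
  rcases Nat.lt_or_eq_of_le h with h | h
  · exact (card_lt hF hG h).le
  · exact (S.size F G hF hG h).le

lemma rk_lt_of_card {F G : Finset (Fin n)} (hF : S.isF F) (hG : S.isF G) (h : F.card < G.card) :
    S.rk F < S.rk G := by
  by_contra hcon
  have := card_le hG hF (by omega)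
  omega

lemma rk_le_of_card {F G : Finset (Fin n)} (hF : S.isF F) (hG : S.isF G) (h : F.card ≤ G.card) :
    S.rk F ≤ S.rk G := by
  by_contra hcon
  have := card_lt hG hF (by omega)
  omega

end PMD

end Pool.Agent.Run7.h503
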