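import Mathlib
import Pool.Agent.Run7.h503.GeoPMD

/-!
A set of the size of a hyperplane of a perfect matroid design of rank `r` which contains a flat of
rank `r - 3` meets some hyperplane in a number of points that is not the size of a flat of rank at
most `r - 2`.
-/

set_option autoImplicit false

open Finset

namespace Pool.Agent.Run7.h503

namespace PMD

variable {n : ℕ} {S : PMD n}

lemma card_split (X F H : Finset (Fin n)) (h : F ⊆ H) :
    (X ∩ (H \ F)).card + (X ∩ F).card = (X ∩ H).card := by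
  classical
  rw [← card_union_of_disjoint]
  · congr 1
    ext x
    simp only [mem_union, mem_inter, mem_sdiff]
    constructor
    · rintro (⟨h1, h2, h3⟩ | ⟨h1, h2⟩)
      · exact ⟨h1, h2⟩
      · exact ⟨h1, h h2⟩
    · rintro ⟨h1, h2⟩
      by_cases h3 : x ∈ F
      · exact Or.inr ⟨h1, h3⟩
      · exact Or.inl ⟨h1, h2, h3⟩
  · rw [disjoint_left]
    intro x hx hx'
    simp only [mem_inter, mem_sdiff] at hx hx'
    exact hx.2.2 hx'.2

lemma card_sdiff' (F H : Finset (Fin n)) (h : F ⊆ H) :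
    (univ ∩ (H \ F)).card + F.card = H.card := by
  have := card_split univ F H h
  simpa using this

/-- `#cov F G * (β - α) = |G| - |F|` -/
lemma cov_card {F G : Finset (Fin n)} (hF : S.isF F) (hG : S.isF G) (hFG : F ⊆ G) (β : ℕ)
    (hβ : ∀ L, S.isF L → S.rk L = S.rk F + 1 → L.card = β) :
    (S.cov F G).card * (β - F.card) + F.card = G.card := by
  have h := Geo.partition (S := S.toGeo) hF hG hFG univ
  have h1 : ∀ L ∈ S.cov F G, (univ ∩ (L \ F)).card = β - F.card := by
    intro L hL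
    rw [Geo.mem_cov] at hL
    have h2 := card_sdiff' F L hL.2.1
    rw [hβ L hL.1 hL.2.2.2] at h2
    omega
  rw [sum_congr rfl h1, sum_const, smul_eq_mul] at h
  have h3 := card_sdiff' F G hFG
  omega

lemma cov_filter {F H : Finset (Fin n)} :
    (S.cov F univ).filter (fun L => L ⊆ H) = S.cov F H := by
  ext L
  simp only [mem_filter, Geo.mem_cov, subset_univ, true_and]
  tauto

lemma hyp_filter {F L : Finset (Fin n)} (hL : L ∈ S.cov F univ) :
    (S.hyp F).filter (fun H => L ⊆ H) = S.cov L univ := by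
  have hL' := Geo.mem_cov.1 hL
  ext H
  simp only [mem_filter, Geo.mem_cov, Geo.mem_hyp, subset_univ, true_and]
  constructor
  · rintro ⟨⟨h1, h2, h3⟩, h4⟩
    exact ⟨h1, h4, by omega⟩
  · rintro ⟨h1, h2, h3⟩
    exact ⟨⟨h1, hL'.2.1.trans h2, by omega⟩, h2⟩

/-- two level count -/
lemma two_level {G : Finset (Fin n)} (hG : S.isF G) (R : ℕ)
    (hR : ∀ L ∈ S.cov G univ, (S.cov L univ).card = R) (X : Finset (Fin n)) :
    ∑ H ∈ S.hyp G, (X ∩ (H \ G)).card = R * (X ∩ (univ \ G)).card := by
  classical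
  rw [← Geo.partition (S := S.toGeo) hG S.top_isF (subset_univ _) X, mul_sum]
  have h1 : ∀ H ∈ S.hyp G, (X ∩ (H \ G)).card =
      ∑ L ∈ S.cov G univ, if L ⊆ H then (X ∩ (L \ G)).card else 0 := by
    intro H hH
    rw [Geo.mem_hyp] at hH
    rw [← Geo.partition (S := S.toGeo) hG hH.1 hH.2.1 X, ← cov_filter, sum_filter]
  rw [sum_congr rfl h1, sum_comm]
  refine sum_congr rfl fun L hL => ?_
  rw [← sum_filter, sum_const, smul_eq_mul, hyp_filter hL, hR L hL]

theorem main (S : PMD n) (hb : S.bot.card = 0) (B F0 : Finset (Fin n))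
    (hF0 : S.isF F0) (hF0r : S.rk F0 + 3 = S.rk univ) (hF0B : F0 ⊆ B)
    (hB : ∀ H, S.isF H → S.rk H + 1 = S.rk univ → B.card = H.card)
    (hs1 : ∀ F, S.isF F → S.rk F = 1 → F.card = 1)
    (hbad : ∀ H, S.isF H → S.rk H + 1 = S.rk univ →
      ∃ F, S.isF F ∧ S.rk F + 2 ≤ S.rk univ ∧ (B ∩ H).card = F.card) : False := by
  classical
  -- a flat of rank r - 2 and a hyperplane
  have hne : ∀ F, S.isF F → S.rk F < S.rk univ → ∃ x, x ∉ F := by
    intro F hF h
    by_contra hcon
    push Not at hcon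
    have : F = univ := eq_univ_iff_forall.2 hcon
    rw [this] at h
    omega
  obtain ⟨x0, hx0⟩ := hne F0 hF0 (by omega)
  obtain ⟨L0, hL0, hF0L0, -, hL0r⟩ := S.add_pt F0 hF0 x0 hx0
  obtain ⟨x1, hx1⟩ := hne L0 hL0 (by omega)
  obtain ⟨H0, hH0, hL0H0, hx1H0, hH0r⟩ := S.add_pt L0 hL0 x1 hx1
  set α := F0.card with hα
  set β := L0.card with hβ
  set k := H0.card with hk
  have hαβ : α < β := card_lt hF0 hL0 (by omega)
  have hβk : β < k := card_lt hL0 hH0 (by omega)
  have sα : ∀ F, S.isF F → S.rk F = S.rk F0 → F.card = α := fun F h h' => S.size F F0 h hF0 h'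
  have sβ : ∀ F, S.isF F → S.rk F = S.rk F0 + 1 → F.card = β :=
    fun F h h' => S.size F L0 h hL0 (by omega)
  have sk : ∀ F, S.isF F → S.rk F = S.rk F0 + 2 → F.card = k :=
    fun F h h' => S.size F H0 h hH0 (by omega)
  have hBk : B.card = k := hB H0 hH0 (by omega)
  obtain ⟨d, hd⟩ : ∃ d, β = α + d := ⟨β - α, by omega⟩
  have hd0 : 0 < d := by omega
  -- R
  set R := (S.cov L0 univ).card with hR
  have hRn : ∀ L, S.isF L → S.rk L = S.rk F0 + 1 → (S.cov L univ).card = R := by
    intro L hL hLr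
    have h1 := cov_card hL S.top_isF (subset_univ _) k (fun F h h' => sk F h (by omega))
    have h2 := cov_card hL0 S.top_isF (subset_univ _) k (fun F h h' => sk F h (by omega))
    rw [sβ L hL hLr] at h1
    rw [← hR, ← hβ] at h2
    have h3 : (S.cov L univ).card * (k - β) = R * (k - β) := by omega
    exact Nat.eq_of_mul_eq_mul_right (by omega) h3
  have hR1 : 1 ≤ R := by
    rw [hR, Nat.one_le_iff_ne_zero, ← Nat.pos_iff_ne_zero, card_pos]
    exact ⟨H0, Geo.mem_cov.2 ⟨hH0, hL0H0, subset_univ _, hH0r⟩⟩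
  -- K
  set K := (S.cov F0 H0).card with hK
  have hKd : K * d + α = k := by
    have h1 := cov_card hF0 hH0 (hF0L0.trans hL0H0) β (fun F h h' => sβ F h h')
    rw [← hK, ← hα, show β - α = d by omega] at h1
    exact h1
  have hKn : ∀ G H, S.isF G → S.isF H → G ⊆ H → S.rk G = S.rk F0 → S.rk H = S.rk F0 + 2 →
      (S.cov G H).card = K := by
    intro G H hG hH hGH hGr hHr
    have h1 := cov_card hG hH hGH β (fun F h h' => sβ F h (by omega))
    rw [sα G hG hGr, sk H hH hHr, show β - α = d by omega] at h1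
    have h3 : (S.cov G H).card * d = K * d := by omega
    exact Nat.eq_of_mul_eq_mul_right hd0 h3
  have hK2 : 2 ≤ K := by
    by_contra hcon
    have : K * d ≤ 1 * d := Nat.mul_le_mul_right d (by omega)
    omega
  -- the values of |B ∩ H|
  have hval : ∀ H, S.isF H → S.rk H = S.rk F0 + 2 → ∀ m, (∀ F, S.isF F → S.rk F + 1 ≤ S.rk F0 →
      F.card ≤ m) → m < (B ∩ H).card → (B ∩ H).card = α ∨ (B ∩ H).card = β := by
    intro H hH hHr m hm hlt
    obtain ⟨F, hF, hFr, hFc⟩ := hbad H hH (by omega)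
    have h1 : S.rk F0 ≤ S.rk F := by
      by_contra hcon
      have := hm F hF (by omega)
      omega
    rcases Nat.lt_or_eq_of_le h1 with h2 | h2
    · right
      rw [hFc]; exact sβ F hF (by omega)
    · left
      rw [hFc]; exact sα F hF h2.symm
  -- Step 1
  have step1 := design_affine (S.cov F0 univ) (S.hyp F0) (fun L H => L ⊆ H) K R d
    (fun L => (B ∩ (L \ F0)).card)
    (by
      intro H hH
      rw [cov_filter]
      have hH' := Geo.mem_hyp.1 hH
      exact hKn F0 H hF0 hH'.1 hH'.2.1 rfl hH'.2.2)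
    (by
      intro L hL
      rw [hyp_filter hL]
      have hL' := Geo.mem_cov.1 hL
      exact hRn L hL'.1 hL'.2.2.2)
    (by
      intro L hL L' hL' hne'
      have h1 := Geo.mem_cov.1 hL
      have h2 := Geo.mem_cov.1 hL'
      have h3 : ¬ L' ⊆ L := fun h =>
        hne' (Geo.eq_of_rk (S := S.toGeo) h2.1 h1.1 h (by omega)).symm
      obtain ⟨x, hxL', hxL⟩ := not_subset.1 h3
      have hxF0 : x ∉ F0 := fun h => hxL (h1.2.1 h)
      obtain ⟨H, hH, hLH, hxH, hHr⟩ := S.add_pt L h1.1 x hxL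
      have h4 : ∀ H', S.isF H' → L ⊆ H' → (L' ⊆ H' ↔ x ∈ H') := by
        intro H' hH' hLH'
        constructor
        · intro h; exact h hxL'
        · intro h
          exact S.min F0 L' H' hF0 h2.1 hH' x hxF0 hxL' h2.2.1 h2.2.2.2 (h1.2.1.trans hLH') h
      rw [card_eq_one]
      refine ⟨H, ?_⟩
      ext H'
      simp only [mem_filter, mem_singleton, Geo.mem_hyp]
      constructor
      · rintro ⟨⟨h5, h6, h7⟩, h8, h9⟩
        have h10 : x ∈ H' := h9 hxL'
        have h11 : H ⊆ H' := S.min L H H' h1.1 hH h5 x hxL hxH hLH hHr h8 h10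
        exact (Geo.eq_of_rk (S := S.toGeo) hH h5 h11 (by omega)).symm
      · rintro rfl
        exact ⟨⟨hH, h1.2.1.trans hLH, by omega⟩, hLH, (h4 _ hH hLH).2 hxH⟩)
    hK2 hR1 hd0
    (by
      rw [Geo.partition (S := S.toGeo) hF0 S.top_isF (subset_univ _) B]
      have h1 := card_split B F0 univ (subset_univ _)
      rw [inter_univ, inter_eq_right.2 hF0B, hBk] at h1
      omega)
    (by
      intro H hH
      have hH' := Geo.mem_hyp.1 hH
      rw [cov_filter, Geo.partition (S := S.toGeo) hF0 hH'.1 hH'.2.1 B]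
      have h1 := card_split B F0 H hH'.2.1
      rw [inter_eq_right.2 hF0B] at h1
      obtain ⟨F, hF, hFr, hFc⟩ := hbad H hH'.1 (by omega)
      have h2 : S.rk F0 ≤ S.rk F := rk_le_of_card hF0 hF (by omega)
      rcases Nat.lt_or_eq_of_le h2 with h3 | h3
      · right
        have := sβ F hF (by omega)
        omega
      · left
        have := sα F hF h3.symm
        omega)
  obtain ⟨hRK, hx⟩ := step1
  have hL0P : L0 ∈ S.cov F0 univ := Geo.mem_cov.2 ⟨hL0, hF0L0, subset_univ _, hL0r⟩
  have hxL0 : K * (B ∩ (L0 \ F0)).card = d := hx L0 hL0P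
  set e := (B ∩ (L0 \ F0)).card with he
  -- rank three
  rcases Nat.eq_zero_or_pos (S.rk F0) with hr0 | hr0
  · have h1 : S.bot = F0 := Geo.eq_of_rk (S := S.toGeo) S.bot_isF hF0 (S.bot_le F0 hF0) (by omega)
    have h2 : α = 0 := by rw [hα, ← h1, hb]
    have h3 : β = 1 := hs1 L0 hL0 (by omega)
    have h4 : d = 1 := by omega
    rw [h4] at hxL0
    have h5 : K = 1 := Nat.eq_one_of_mul_eq_one_right hxL0
    omega
  -- rank at least four
  obtain ⟨F1, hF1, hF1F0, hF1r⟩ := Geo.exists_below (S := S.toGeo) hF0 hr0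
  set α' := F1.card with hα'
  have hα'α : α' < α := card_lt hF1 hF0 (by omega)
  obtain ⟨d', hd'⟩ : ∃ d', α = α' + d' := ⟨α - α', by omega⟩
  have hF1B : F1 ⊆ B := hF1F0.trans hF0B
  set a := (S.cov F1 L0).card with ha
  have had : a * d' = d' + d := by
    have h1 := cov_card hF1 hL0 (hF1F0.trans hF0L0) α (fun F h h' => sα F h (by omega))
    rw [← ha, ← hα', show α - α' = d' by omega] at h1
    omega
  have hF0c : F0 ∈ S.cov F1 L0 := Geo.mem_cov.2 ⟨hF0, hF1F0, hF0L0, by omega⟩
  -- number of points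
  have hv : n = α + K * K * d := by
    have h1 := cov_card hL0 S.top_isF (subset_univ _) k (fun F h h' => sk F h (by omega))
    rw [← hR, ← hβ, card_univ, Fintype.card_fin, hRK] at h1
    obtain ⟨K', hK'⟩ : ∃ K', K = K' + 1 := ⟨K - 1, by omega⟩
    have h2 : k - β = K' * d := by
      rw [← hKd, hK', hd]
      have : (K' + 1) * d = K' * d + d := by ring
      omega
    rw [h2, hd, hK'] at h1
    rw [hK', ← h1]
    ring
  -- heavy flats
  have hheavy : ∀ G ∈ S.cov F1 L0, 0 < (B ∩ (G \ F1)).card →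
      ∃ t : ℤ, t * d = ((K : ℤ) * K - 1) * ((d' : ℤ) - (B ∩ (G \ F1)).card) := by
    intro G hG hpos
    have hG' := Geo.mem_cov.1 hG
    have hGr : S.rk G = S.rk F0 := by omega
    have hGc : G.card = α := sα G hG'.1 hGr
    have hsplit := card_split B F1 G hG'.2.1
    rw [inter_eq_right.2 hF1B] at hsplit
    set y := (B ∩ (G \ F1)).card with hy
    have hRG : ∀ L ∈ S.cov G univ, (S.cov L univ).card = R := by
      intro L hL
      have hL' := Geo.mem_cov.1 hL
      exact hRn L hL'.1 (by omega)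
    -- number of hyperplanes
    have hN : (S.hyp G).card = K * (K + 1) := by
      have h1 := two_level hG'.1 R hRG univ
      have h2 : ∀ H ∈ S.hyp G, (univ ∩ (H \ G)).card = K * d := by
        intro H hH
        have hH' := Geo.mem_hyp.1 hH
        have h3 := card_sdiff' G H hH'.2.1
        rw [sk H hH'.1 (by omega), hGc] at h3
        omega
      rw [sum_congr rfl h2, sum_const, smul_eq_mul] at h1
      have h4 := card_sdiff' G univ (subset_univ _)
      rw [card_univ, Fintype.card_fin, hGc] at h4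
      have h5 : (univ ∩ (univ \ G) : Finset (Fin n)).card = K * K * d := by omega
      rw [h5, hRK] at h1
      have h6 : (S.hyp G).card * (K * d) = (K * (K + 1)) * (K * d) := by rw [h1]; ring
      exact Nat.eq_of_mul_eq_mul_right (Nat.mul_pos (by omega) hd0) h6
    have h1 := two_level hG'.1 R hRG B
    have h2 : ∀ H ∈ S.hyp G, ((B ∩ (H \ G)).card : ℤ) =
        ((β : ℤ) - (B ∩ G).card) - (if (B ∩ H).card = α then (d : ℤ) else 0) := by
      intro H hH
      have hH' := Geo.mem_hyp.1 hH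
      have h3 := card_split B G H hH'.2.1
      have h4 := hval H hH'.1 (by omega) α'
        (fun F hF hFr => by
          have := card_le hF hF1 (by omega)
          exact this)
        (by
          have : (B ∩ G).card ≤ (B ∩ H).card := card_le_card (inter_subset_inter_left hH'.2.1)
          omega)
      rcases h4 with h5 | h5
      · rw [if_pos h5]
        have : ((B ∩ (H \ G)).card : ℤ) + (B ∩ G).card = (B ∩ H).card := by exact_mod_cast h3
        rw [h5] at this
        rw [hd]
        push_cast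
        linarith
      · have h6 : ¬ (B ∩ H).card = α := by omega
        rw [if_neg h6]
        have : ((B ∩ (H \ G)).card : ℤ) + (B ∩ G).card = (B ∩ H).card := by exact_mod_cast h3
        rw [h5] at this
        linarith
    have h3 : ((∑ H ∈ S.hyp G, (B ∩ (H \ G)).card : ℕ) : ℤ) =
        (K * (K + 1) : ℤ) * ((β : ℤ) - (B ∩ G).card) -
          (((S.hyp G).filter (fun H => (B ∩ H).card = α)).card : ℤ) * d := by
      push_cast
      rw [sum_congr rfl h2, sum_sub_distrib, sum_const, ← sum_filter, sum_const, hN]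
      simp only [nsmul_eq_mul]
      push_cast
      ring
    rw [h1] at h3
    have h4 := card_split B G univ (subset_univ _)
    rw [inter_univ, hBk] at h4
    have h5 : ((B ∩ (univ \ G)).card : ℤ) = (k : ℤ) - (B ∩ G).card := by
      have : ((B ∩ (univ \ G)).card : ℤ) + (B ∩ G).card = k := by exact_mod_cast h4
      linarith
    have h6 : ((B ∩ G).card : ℤ) = y + α' := by exact_mod_cast hsplit.symm
    refine ⟨(((S.hyp G).filter (fun H => (B ∩ H).card = α)).card : ℤ), ?_⟩
    have h7 : (k : ℤ) = K * d + α := by exact_mod_cast hKd.symm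
    have h8 : (β : ℤ) = α + d := by exact_mod_cast hd
    have h9 : (α : ℤ) = α' + d' := by exact_mod_cast hd'
    push_cast at h3
    rw [h5, h6, h7, h8, h9, hRK] at h3
    push_cast at h3
    linarith
  -- sum over the heavy flats other than F0
  set P' := ((S.cov F1 L0).erase F0).filter (fun G => 0 < (B ∩ (G \ F1)).card) with hP'
  have hsum : ∑ G ∈ P', (B ∩ (G \ F1)).card = e := by
    have h1 := Geo.partition (S := S.toGeo) hF1 hL0 (hF1F0.trans hF0L0) B
    rw [← add_sum_erase _ _ hF0c] at h1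
    have h2 := card_split B F1 L0 (hF1F0.trans hF0L0)
    have h3 := card_split B F0 L0 hF0L0
    have h4 := card_split B F1 F0 hF1F0
    have h5 : ∑ G ∈ (S.cov F1 L0).erase F0, (B ∩ (G \ F1)).card = ∑ G ∈ P', (B ∩ (G \ F1)).card := by
      rw [hP', sum_filter]
      refine sum_congr rfl fun G _ => ?_
      split_ifs with h
      · rfl
      · omega
    omega
  have hT : ∃ T : ℤ, T * d = ((K : ℤ) * K - 1) * ((P'.card : ℤ) * d' - e) := by
    have h1 : ∀ G ∈ P', (d : ℤ) ∣ ((K : ℤ) * K - 1) * ((d' : ℤ) - (B ∩ (G \ F1)).card) := by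
      intro G hG
      rw [hP', mem_filter, mem_erase] at hG
      obtain ⟨t, ht⟩ := hheavy G hG.1.2 hG.2
      exact ⟨t, by rw [← ht]; ring⟩
    have h2 := dvd_sum h1
    rw [← mul_sum, sum_sub_distrib, sum_const, nsmul_eq_mul] at h2
    have h3 : ∑ G ∈ P', ((B ∩ (G \ F1)).card : ℤ) = e := by exact_mod_cast hsum
    rw [h3] at h2
    obtain ⟨T, hT⟩ := h2
    exact ⟨T, by rw [hT]; ring⟩
  obtain ⟨T, hT⟩ := hT
  -- a * d' ≤ K * d'
  have haK : a ≤ K := by
    -- a flat G of rank r - 3 between F1 and H0, not inside L0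
    have hx1F1 : x1 ∉ F1 := fun h => hx1 (hF0L0 (hF1F0 h))
    obtain ⟨G, hG, hF1G, hx1G, hGr⟩ := S.add_pt F1 hF1 x1 hx1F1
    have hGH0 : G ⊆ H0 := S.min F1 G H0 hF1 hG hH0 x1 hx1F1 hx1G hF1G hGr
      (hF1F0.trans (hF0L0.trans hL0H0)) hx1H0
    have hcK : (S.cov G H0).card = K := hKn G H0 hG hH0 hGH0 (by omega) (by omega)
    have hsub : L0 \ F1 ⊆ (S.cov G H0).biUnion (fun L' => (L' ∩ L0) \ F1) := by
      intro y hy
      rw [mem_sdiff] at hy
      have hyG : y ∉ G := by
        intro hyG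
        have h1 : S.isF (G ∩ L0) := S.inter G L0 hG hL0
        have h2 : F1 ⊂ G ∩ L0 := by
          refine ⟨subset_inter hF1G (hF1F0.trans hF0L0), fun h => hy.2 (h ?_)⟩
          rw [mem_inter]; exact ⟨hyG, hy.1⟩
        have h3 := S.lt F1 (G ∩ L0) hF1 h1 h2
        have h4 : G ∩ L0 = G :=
          Geo.eq_of_rk (S := S.toGeo) h1 hG inter_subset_left (by omega)
        have h5 : x1 ∈ G ∩ L0 := by rw [h4]; exact hx1G
        exact hx1 (mem_inter.1 h5).2
      obtain ⟨L', hL', hyL'⟩ := Geo.exists_cov (S := S.toGeo) hG hH0 hGH0 hyG (hL0H0 hy.1)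
      rw [mem_biUnion]
      refine ⟨L', hL', ?_⟩
      rw [mem_sdiff, mem_inter]
      exact ⟨⟨hyL', hy.1⟩, hy.2⟩
    have h1 := (card_le_card hsub).trans card_biUnion_le
    have h2 : ∀ L' ∈ S.cov G H0, ((L' ∩ L0) \ F1).card ≤ d' := by
      intro L' hL'
      have hL'' := Geo.mem_cov.1 hL'
      have h3 : S.isF (L' ∩ L0) := S.inter L' L0 hL''.1 hL0
      have h4 : L' ∩ L0 ⊂ L' := by
        refine ⟨inter_subset_left, fun h => hx1 ?_⟩
        exact (mem_inter.1 (h (hL''.2.1 hx1G))).2
      have h5 := S.lt _ _ h3 hL''.1 h4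
      have h6 : (L' ∩ L0).card ≤ α := card_le h3 hF0 (by omega)
      have h7 : F1 ⊆ L' ∩ L0 := subset_inter (hF1G.trans hL''.2.1) (hF1F0.trans hF0L0)
      rw [card_sdiff_of_subset h7]
      omega
    have h3 := sum_le_sum h2
    rw [sum_const, smul_eq_mul, hcK] at h3
    have h4 : (L0 \ F1).card = d' + d := by
      rw [card_sdiff_of_subset (hF1F0.trans hF0L0)]
      omega
    have h5 : a * d' ≤ K * d' := by rw [had]; omega
    exact Nat.le_of_mul_le_mul_right h5 (by omega)
  -- final contradiction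
  obtain ⟨b, hb'⟩ : ∃ b, a = b + 1 := by
    refine ⟨a - 1, ?_⟩
    have : 0 < a := card_pos.2 ⟨F0, hF0c⟩
    omega
  have hdb : d = b * d' := by
    rw [hb'] at had
    have : (b + 1) * d' = b * d' + d' := by ring
    omega
  have hb1 : 1 ≤ b := by
    rcases Nat.eq_zero_or_pos b with h | h
    · rw [h, zero_mul] at hdb; omega
    · exact h
  have hKb : (K : ℤ) ∣ b := by
    have h2 : (d : ℤ) = b * d' := by exact_mod_cast hdb
    have h1 : (K : ℤ) * e = b * d' := by rw [← h2]; exact_mod_cast hxL0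
    have hd'0 : (d' : ℤ) ≠ 0 := by
      have : 0 < d' := by omega
      exact_mod_cast this.ne'
    rw [h2] at hT
    -- K * b * T * d' = (K^2-1) (K * #P' - b) d'
    have h3 : ((K : ℤ) * (b * T)) * d' = (((K : ℤ) * K - 1) * (K * P'.card - b)) * d' := by
      have h4 : (K : ℤ) * (T * (b * d')) = K * (((K : ℤ) * K - 1) * ((P'.card : ℤ) * d' - e)) := by
        rw [hT]
      have h5 : (K : ℤ) * (((K : ℤ) * K - 1) * ((P'.card : ℤ) * d' - e)) =
          ((K : ℤ) * K - 1) * ((K : ℤ) * P'.card * d' - K * e) := by ring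
      rw [h5, h1] at h4
      linarith
    have h6 := mul_right_cancel₀ hd'0 h3
    refine ⟨b * T - K * (K * P'.card) + P'.card + K * b, ?_⟩
    linarith
  have : K ∣ b := by exact_mod_cast hKb
  have := Nat.le_of_dvd (by omega) this
  omega

end PMD

end Pool.Agent.Run7.h503
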