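import Mathlib
import Pool.Agent.Run7.h503.MaximalPMD

set_option autoImplicit false

open Finset

namespace Pool.Agent.Run7.h503

variable {n : ℕ}

lemma eRk_coe (M : Matroid (Fin n)) (F : Set (Fin n)) :
    ((M.eRk F).toNat : ℕ∞) = M.eRk F := by
  apply ENat.natCast_toNat
  have h1 := M.eRk_le_encard F
  have h2 : F.encard < ⊤ := (Set.toFinite F).encard_lt_top
  exact (h1.trans_lt h2).ne

lemma rk_fin (M : Matroid (Fin n)) (F : Set (Fin n)) : M.IsRkFinite F := by
  rw [← Matroid.eRk_lt_top_iff, ← eRk_coe]
  exact ENat.natCast_lt_top _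

/-- the finset of a set -/
noncomputable def fs (F : Set (Fin n)) : Finset (Fin n) := (Set.toFinite F).toFinset

@[simp] lemma coe_fs (F : Set (Fin n)) : (fs F : Set (Fin n)) = F := by simp [fs]

lemma fs_coe (F : Finset (Fin n)) : fs (F : Set (Fin n)) = F := by
  apply Finset.coe_injective; simp

lemma mem_fs {F : Set (Fin n)} {x : Fin n} : x ∈ fs F ↔ x ∈ F := by simp [fs]

noncomputable def ofMatroid (M : Matroid (Fin n)) (hE : M.E = Set.univ) : Geo n where
  isF F := M.IsFlat (F : Set (Fin n))
  rk F := (M.eRk (F : Set (Fin n))).toNat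
  top_isF := by
    rw [coe_univ, ← hE]; exact M.ground_isFlat
  bot := fs (M.closure ∅)
  bot_isF := by rw [coe_fs]; exact M.isFlat_closure _
  bot_rk := by rw [coe_fs, Matroid.eRk_closure_eq, Matroid.eRk_empty]; rfl
  bot_le := by
    intro F hF x hx
    rw [mem_fs] at hx
    have h := M.closure_subset_closure (Set.empty_subset (F : Set (Fin n))) hx
    rw [hF.closure] at h
    exact h
  add_pt := by
    intro F hF x hx
    refine ⟨fs (M.closure (insert x (F : Set (Fin n)))), ?_, ?_, ?_, ?_⟩
    · rw [coe_fs]; exact M.isFlat_closure _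
    · intro y hy
      rw [mem_fs]
      exact M.mem_closure_of_mem' (Set.mem_insert_of_mem _ hy) (by rw [hE]; trivial)
    · rw [mem_fs]
      exact M.mem_closure_of_mem' (Set.mem_insert _ _) (by rw [hE]; trivial)
    · rw [coe_fs, Matroid.eRk_closure_eq, Matroid.eRk_insert_eq_add_one, ENat.toNat_add]
      · rfl
      · rw [← eRk_coe]; exact ENat.natCast_ne_top _
      · simp
      · rw [hF.closure, hE]
        exact ⟨trivial, by simpa using hx⟩
  min := by
    intro F G K hF hG hK x hx hxG hFG hr hFK hxK
    have h1 : (insert x (F : Set (Fin n))) ⊆ G := by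
      intro y hy
      rcases hy with rfl | hy
      · exact hxG
      · exact hFG hy
    have h2 : M.eRk (insert x (F : Set (Fin n))) = M.eRk (F : Set (Fin n)) + 1 := by
      apply Matroid.eRk_insert_eq_add_one
      rw [hF.closure, hE]
      exact ⟨trivial, by simpa using hx⟩
    have h3 : M.eRk (G : Set (Fin n)) ≤ M.eRk (insert x (F : Set (Fin n))) := by
      rw [h2, ← eRk_coe M G, ← eRk_coe M F, hr]
      push_cast
      exact le_rfl
    have h4 := (rk_fin M (insert x (F : Set (Fin n)))).closure_eq_closure_of_subset_of_eRk_ge_eRk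
      h1 h3
    rw [hG.closure] at h4
    have h5 : M.closure (insert x (F : Set (Fin n))) ⊆ M.closure (K : Set (Fin n)) := by
      apply M.closure_subset_closure
      intro y hy
      rcases hy with rfl | hy
      · exact hxK
      · exact hFK hy
    rw [h4, hK.closure] at h5
    exact_mod_cast h5
  lt := by
    intro F G hF hG hFG
    by_contra hcon
    push Not at hcon
    have h1 : M.eRk (G : Set (Fin n)) ≤ M.eRk (F : Set (Fin n)) := by
      rw [← eRk_coe M G, ← eRk_coe M F]
      exact_mod_cast hcon
    have h4 := (rk_fin M (F : Set (Fin n))).closure_eq_closure_of_subset_of_eRk_ge_eRk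
      (by exact_mod_cast hFG.1) h1
    rw [hG.closure, hF.closure] at h4
    have h5 : F = G := by exact_mod_cast h4
    exact hFG.2 (by rw [h5])
  inter := by
    intro F G hF hG
    rw [Matroid.isFlat_iff_closure_eq]
    apply subset_antisymm
    · rw [coe_inter]
      apply Set.subset_inter
      · have h := M.closure_subset_closure (Set.inter_subset_left (s := (F : Set (Fin n)))
          (t := (G : Set (Fin n))))
        rwa [hF.closure] at h
      · have h := M.closure_subset_closure (Set.inter_subset_right (s := (F : Set (Fin n)))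
          (t := (G : Set (Fin n))))
        rwa [hG.closure] at h
    · exact M.subset_closure _ (by rw [hE]; exact Set.subset_univ _)

end Pool.Agent.Run7.h503
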