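import Mathlib
import Pool.Agent.Run7.h503.OfMatroid

set_option autoImplicit false

open Finset

namespace Pool.Agent.Run7.h503

variable {n : ℕ}

/-- the perfect matroid design of a matroid with flats of constant size in each rank -/
noncomputable def pmd (M : Matroid (Fin n)) (hE : M.E = Set.univ)
    (hsize : ∀ F₁ F₂ : Set (Fin n), M.IsFlat F₁ → M.IsFlat F₂ → M.eRk F₁ = M.eRk F₂ →
      F₁.ncard = F₂.ncard) : PMD n where
  toGeo := ofMatroid M hE
  size := by
    intro F G hF hG h
    have h1 := hsize F G hF hG (by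
      rw [← eRk_coe M F, ← eRk_coe M G]
      exact congrArg _ h)
    simpa using h1

theorem maximal (M : Matroid (Fin n)) (hE : M.E = Set.univ)
    (hsize : ∀ F₁ F₂ : Set (Fin n), M.IsFlat F₁ → M.IsFlat F₂ → M.eRk F₁ = M.eRk F₂ →
      F₁.ncard = F₂.ncard)
    (h0 : ∀ F : Set (Fin n), M.IsFlat F → M.eRk F = 0 → F.ncard = 0)
    (h1 : ∀ F : Set (Fin n), M.IsFlat F → M.eRk F = 1 → F.ncard = 1)
    (B H₀ : Set (Fin n)) (hH₀ : M.IsFlat H₀) (hH₀r : M.eRk H₀ + 1 = M.eRk M.E)
    (hB : B.ncard = H₀.ncard)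
    (hyp : M.eRk M.E ≤ 4 ∨
      (∀ F : Set (Fin n), M.IsFlat F → M.eRk F + 3 = M.eRk M.E → (F.ncard : ℕ∞) = M.eRk F) ∨
      (∃ F : Set (Fin n), M.IsFlat F ∧ M.eRk F + 3 = M.eRk M.E ∧ F ⊆ B)) :
    ∃ H : Set (Fin n), M.IsFlat H ∧ M.eRk H + 1 = M.eRk M.E ∧
      ∀ F : Set (Fin n), M.IsFlat F → M.eRk F + 2 ≤ M.eRk M.E → (B ∩ H).ncard ≠ F.ncard := by
  classical
  by_contra hcon
  push Not at hcon
  set S := pmd M hE hsize with hS
  have hrk : ∀ F : Finset (Fin n), ((S.rk F : ℕ) : ℕ∞) = M.eRk (F : Set (Fin n)) :=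
    fun F => eRk_coe M F
  have hE' : ((S.rk univ : ℕ) : ℕ∞) = M.eRk M.E := by
    rw [hrk, coe_univ, hE]
  have hflat : ∀ F : Finset (Fin n), S.isF F ↔ M.IsFlat (F : Set (Fin n)) := fun F => Iff.rfl
  have hcard : ∀ F : Finset (Fin n), (F : Set (Fin n)).ncard = F.card := fun F => by simp
  have hcardS : ∀ F : Set (Fin n), F.ncard = (fs F).card := fun F => by
    rw [← hcard, coe_fs]
  have hrkS : ∀ F : Set (Fin n), M.eRk F = ((S.rk (fs F) : ℕ) : ℕ∞) := fun F => by
    rw [hrk, coe_fs]
  have hflatS : ∀ F : Set (Fin n), M.IsFlat F ↔ S.isF (fs F) := fun F => by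
    rw [hflat, coe_fs]
  set B' := fs B with hB'
  have hbad : ∀ H, S.isF H → S.rk H + 1 = S.rk univ →
      ∃ F, S.isF F ∧ S.rk F + 2 ≤ S.rk univ ∧ (B' ∩ H).card = F.card := by
    intro H hH hHr
    obtain ⟨F, hF, hFr, hFc⟩ := hcon (H : Set (Fin n)) ((hflat H).1 hH) (by
      rw [← hrk, ← hE']; exact_mod_cast hHr)
    refine ⟨fs F, (hflatS F).1 hF, ?_, ?_⟩
    · rw [hrkS F, ← hE'] at hFr
      exact_mod_cast hFr
    · rw [← hcardS F, ← hFc, ← hcard, coe_inter, hB', coe_fs]
  have hB0 : S.isF (fs H₀) := (hflatS H₀).1 hH₀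
  have hB0r : S.rk (fs H₀) + 1 = S.rk univ := by
    rw [hrkS H₀, ← hE'] at hH₀r
    exact_mod_cast hH₀r
  have hBc : B'.card = (fs H₀).card := by rw [← hcardS B, hB, hcardS]
  have hBall : ∀ H, S.isF H → S.rk H + 1 = S.rk univ → B'.card = H.card := by
    intro H hH hHr
    rw [hBc]
    exact S.size _ _ hB0 hH (by omega)
  have hs0 : ∀ F, S.isF F → S.rk F = 0 → F.card = 0 := by
    intro F hF hFr
    rw [← hcard]
    apply h0 _ ((hflat F).1 hF)
    rw [← hrk, hFr]; rfl
  have hs1 : ∀ F, S.isF F → S.rk F = 1 → F.card = 1 := by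
    intro F hF hFr
    rw [← hcard]
    apply h1 _ ((hflat F).1 hF)
    rw [← hrk, hFr]; rfl
  have hbot : S.bot.card = 0 := hs0 _ S.bot_isF S.bot_rk
  have hmain : ∀ F0 : Finset (Fin n), S.isF F0 → S.rk F0 + 3 = S.rk univ → F0 ⊆ B' → False :=
    fun F0 hF0 hF0r hF0B => PMD.main S hbot B' F0 hF0 hF0r hF0B hBall hs1 hbad
  -- small ranks
  have hr1 : 1 ≤ S.rk univ := by omega
  have hsmall : 3 ≤ S.rk univ := by
    by_contra hlt
    obtain ⟨F, hF, hFr, hFc⟩ := hbad (fs H₀) hB0 hB0r
    have hr2 : S.rk univ = 2 := by omega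
    have hB1 : B'.card = 1 := by rw [hBc]; exact hs1 _ hB0 (by omega)
    obtain ⟨x, hx⟩ := card_eq_one.1 hB1
    -- the flat through x
    have hxb : x ∉ S.bot := by
      intro h
      have := card_pos.2 ⟨x, h⟩
      omega
    obtain ⟨G, hG, -, hxG, hGr⟩ := S.add_pt S.bot S.bot_isF x hxb
    rw [S.bot_rk] at hGr
    obtain ⟨F', hF', hFr', hFc'⟩ := hbad G hG (by omega)
    have h3 := hs0 F' hF' (by omega)
    have h4 : x ∈ B' ∩ G := by rw [hx, mem_inter]; exact ⟨mem_singleton_self x, hxG⟩
    have := card_pos.2 ⟨x, h4⟩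
    omega
  -- a flat of rank i inside B' as long as all flats of rank at most i are independent sets
  have hgrow : ∀ m : ℕ, m + 3 ≤ S.rk univ → (∀ F, S.isF F → S.rk F ≤ m → F.card = S.rk F) →
      ∀ i, i ≤ m → ∃ F, S.isF F ∧ S.rk F = i ∧ F ⊆ B' := by
    intro m hm hfree i
    induction i with
    | zero =>
      intro _
      refine ⟨S.bot, S.bot_isF, S.bot_rk, ?_⟩
      have : S.bot = ∅ := card_eq_zero.1 hbot
      rw [this]; exact empty_subset _
    | succ i ih =>
      intro hi
      obtain ⟨F, hF, hFr, hFB⟩ := ih (by omega)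
      have hlt : F.card < B'.card := by
        rw [hBc]; exact PMD.card_lt hF hB0 (by omega)
      obtain ⟨x, hxB, hxF⟩ := exists_mem_notMem_of_card_lt_card hlt
      obtain ⟨G, hG, hFG, hxG, hGr⟩ := S.add_pt F hF x hxF
      refine ⟨G, hG, by omega, ?_⟩
      have h3 := hfree G hG (by omega)
      have h4 := hfree F hF (by omega)
      have h5 : insert x F ⊆ G := insert_subset hxG hFG
      have h6 : insert x F = G := eq_of_subset_of_card_le h5 (by
        rw [card_insert_of_notMem hxF]; omega)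
      rw [← h6]
      exact insert_subset hxB hFB
  rcases hyp with hyp | hyp | hyp
  · have hr4 : S.rk univ ≤ 4 := by
      rw [← hE'] at hyp
      exact_mod_cast hyp
    obtain ⟨F, hF, hFr, hFB⟩ := hgrow (S.rk univ - 3) (by omega) (by
      intro F hF hFr
      rcases Nat.eq_zero_or_pos (S.rk F) with h | h
      · rw [h]; exact hs0 F hF h
      · have h2 : S.rk F = 1 := by omega
        rw [h2]; exact hs1 F hF h2) (S.rk univ - 3) le_rfl
    exact hmain F hF (by omega) hFB
  · obtain ⟨m, hm⟩ : ∃ m, S.rk univ = m + 3 := ⟨S.rk univ - 3, by omega⟩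
    have htop : ∀ F, S.isF F → S.rk F = m → F.card = m := by
      intro F hF hFr
      have h2 := hyp (F : Set (Fin n)) ((hflat F).1 hF) (by
        rw [← hrk, ← hE', hFr, hm]; push_cast; rfl)
      rw [hcard, ← hrk, hFr] at h2
      exact_mod_cast h2
    have hfree : ∀ F, S.isF F → S.rk F ≤ m → F.card = S.rk F := by
      intro F hF hFr
      -- lower bound
      have hlow : ∀ i, ∀ F, S.isF F → S.rk F = i → i ≤ F.card := by
        intro i
        induction i with
        | zero => intro F _ _; omega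
        | succ i ih =>
          intro F hF hFr
          obtain ⟨G, hG, hGF, hGr⟩ := Geo.exists_below (S := S.toGeo) hF (by omega)
          have := ih G hG (by omega)
          have := PMD.card_lt hG hF (by omega)
          omega
      -- upper bound
      have hup : ∀ j, ∀ F, S.isF F → S.rk F + j = m → F.card + j ≤ m := by
        intro j
        induction j with
        | zero => intro F hF h; have := htop F hF (by omega); omega
        | succ j ih =>
          intro F hF h
          have : ∃ x, x ∉ F := by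
            by_contra hc
            push Not at hc
            have : F = univ := eq_univ_iff_forall.2 hc
            rw [this] at h
            omega
          obtain ⟨x, hx⟩ := this
          obtain ⟨G, hG, hFG, hxG, hGr⟩ := S.add_pt F hF x hx
          have h5 := ih G hG (by omega)
          have h6 := PMD.card_lt hF hG (by omega)
          omega
      have h7 := hlow _ F hF rfl
      have h8 := hup (m - S.rk F) F hF (by omega)
      omega
    obtain ⟨F, hF, hFr, hFB⟩ := hgrow m (by omega) hfree m le_rfl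
    exact hmain F hF (by omega) hFB
  · obtain ⟨F, hF, hFr, hFB⟩ := hyp
    refine hmain (fs F) ((hflatS F).1 hF) ?_ ?_
    · rw [hrkS F, ← hE'] at hFr
      exact_mod_cast hFr
    · intro x hx
      rw [mem_fs] at hx
      rw [hB', mem_fs]
      exact hFB hx

end Pool.Agent.Run7.h503
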